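import Pool.Agent.H93.KC.Targets

open Set Metric Filter Topology
open scoped ContDiff

noncomputable section

namespace Pool.Agent.H62.KC

open Pool.Agent.H93.KC

/-- EMB -/
theorem emb (hgeo : T_GEO) (hautb : T_AUTB) (hautx : T_AUTX) (halg : T_ALG) (hxi : T_XI) :
    T_EMB := by
  intro R p a ε hR hp ha hpa hε
  have hYne : Y ⊆ Zne := hgeo.2.1
  have hap : a - p ≠ 0 := sub_ne_zero.mpr (Ne.symm hpa)
  have h01 : ((0, 1) : E) ≠ 0 := by
    intro h
    have := congrArg Prod.snd h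
    simp at this
  obtain ⟨T, hT⟩ := SeparatingDual.exists_continuousLinearEquiv_apply_eq (R := ℂ) hap h01
  -- the scaling factor
  set nT : ℝ := ‖(T : E →L[ℂ] E)‖ with hnT
  have hnT0 : 0 ≤ nT := norm_nonneg _
  set d : ℝ := 1 / (2 * (nT * (2 * R + 1) + 1)) with hd
  have hden : 0 < nT * (2 * R + 1) + 1 := by positivity
  have hd0 : 0 < d := by positivity
  have hdc : (d : ℂ) ≠ 0 := by exact_mod_cast hd0.ne'
  have hdn : ‖(d : ℂ)‖ = d := by rw [Complex.norm_real, Real.norm_of_nonneg hd0.le]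
  set B : E → E := fun x => (1 + (d : ℂ) * (T (x - p)).1, (T (x - p)).2) with hB
  set Bi : E → E := fun y => p + T.symm ((y.1 - 1) / (d : ℂ), y.2) with hBi
  have hBiB : ∀ x, Bi (B x) = x := by
    intro x
    have : ((1 + (d : ℂ) * (T (x - p)).1 - 1) / (d : ℂ), (T (x - p)).2) = T (x - p) := by
      apply Prod.ext
      · show (1 + (d : ℂ) * (T (x - p)).1 - 1) / (d : ℂ) = (T (x - p)).1
        field_simp; ring
      · rfl
    simp only [hBi, hB]
    rw [this, T.symm_apply_apply]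
    simp
  have hBBi : ∀ y, B (Bi y) = y := by
    intro y
    simp only [hBi, hB]
    rw [add_sub_cancel_left, T.apply_symm_apply]
    apply Prod.ext
    · show 1 + (d : ℂ) * ((y.1 - 1) / (d : ℂ)) = y.1
      field_simp; ring
    · rfl
  have hBc : ContDiff ℂ ω B := by
    have h1 : ContDiff ℂ ω (fun x : E => T (x - p)) :=
      T.contDiff.comp (contDiff_id.sub contDiff_const)
    exact (contDiff_const.add (contDiff_const.mul (contDiff_fst.comp h1))).prodMk
      (contDiff_snd.comp h1)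
  have hBic : ContDiff ℂ ω Bi := by
    have h1 : ContDiff ℂ ω (fun y : E => ((y.1 - 1) / (d : ℂ), y.2)) :=
      ((contDiff_fst.sub contDiff_const).div_const _).prodMk contDiff_snd
    exact contDiff_const.add (T.symm.contDiff.comp h1)
  have hBa : AnalyticOnNhd ℂ B univ := contDiff_omega_iff_analyticOnNhd.mp hBc
  have hBia : AnalyticOnNhd ℂ Bi univ := contDiff_omega_iff_analyticOnNhd.mp hBic
  have hBr : ContDiff ℝ ∞ B := (hBc.of_le le_top).restrict_scalars ℝ
  have hBir : ContDiff ℝ ∞ Bi := (hBic.of_le le_top).restrict_scalars ℝ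
  -- choice of eta
  set nS : ℝ := ‖(T.symm : E →L[ℂ] E)‖ with hnS
  have hnS0 : 0 ≤ nS := norm_nonneg _
  set ε' : ℝ := min ε 1 with hε'
  have hε'0 : 0 < ε' := by positivity
  have hε'1 : ε' ≤ 1 := min_le_right _ _
  have hε'2 : ε' ≤ ε := min_le_left _ _
  set η : ℝ := ε' * min d 1 / (nS + 1) with hη
  have hη0 : 0 < η := by positivity
  have hsmall : ∀ y : E, ‖y.1 - 1‖ < η → ‖y.2‖ < η → ‖Bi y - p‖ < ε' := by
    intro y h1 h2
    have e : Bi y - p = T.symm ((y.1 - 1) / (d : ℂ), y.2) := by simp [hBi]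
    rw [e]
    have hn1 : ‖(((y.1 - 1) / (d : ℂ), y.2) : E)‖ < ε' / (nS + 1) := by
      rw [Prod.norm_def]
      apply max_lt
      · show ‖(y.1 - 1) / (d : ℂ)‖ < _
        rw [norm_div, hdn, div_lt_iff₀ hd0]
        have : η ≤ ε' / (nS + 1) * d := by
          rw [hη]
          have hm : min d 1 ≤ d := min_le_left _ _
          calc ε' * min d 1 / (nS + 1) ≤ ε' * d / (nS + 1) := by gcongr
            _ = _ := by ring
        linarith
      · show ‖y.2‖ < _
        have : η ≤ ε' / (nS + 1) := by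
          rw [hη]
          have hm : min d 1 ≤ 1 := min_le_right _ _
          calc ε' * min d 1 / (nS + 1) ≤ ε' * 1 / (nS + 1) := by gcongr
            _ = _ := by ring
        linarith
    have h3 : ‖T.symm ((y.1 - 1) / (d : ℂ), y.2)‖ ≤ nS * ‖(((y.1 - 1) / (d : ℂ), y.2) : E)‖ :=
      (T.symm : E →L[ℂ] E).le_opNorm _
    have hn0 : 0 ≤ ‖(((y.1 - 1) / (d : ℂ), y.2) : E)‖ := norm_nonneg _
    calc _ ≤ nS * ‖(((y.1 - 1) / (d : ℂ), y.2) : E)‖ := h3
      _ ≤ (nS + 1) * ‖(((y.1 - 1) / (d : ℂ), y.2) : E)‖ := by nlinarith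
      _ < (nS + 1) * (ε' / (nS + 1)) := by
        apply mul_lt_mul_of_pos_left hn1
        linarith
      _ = ε' := by field_simp
  obtain ⟨Ξ, Ψ, hΞΨ, hΞY, hΞq⟩ := hxi η hη0
  obtain ⟨hΨΞ, hmap1, hmap2, hinv1, hinv2, han1, han2⟩ := hautb Ξ Ψ hΞΨ
  -- the compact set
  set D : Set E := closedBall (0 : E) (R + 1) with hD
  have hDc : IsCompact D := isCompact_closedBall _ _
  set L : Set E := B '' D with hL
  have hLc : IsCompact L := hDc.image hBc.continuous
  have hBne : ∀ x ∈ D, B x ∈ Zne := by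
    intro x hx
    have hx' : ‖x‖ ≤ R + 1 := by simpa [hD] using hx
    show 1 + (d : ℂ) * (T (x - p)).1 ≠ 0
    have h1 : ‖x - p‖ ≤ 2 * R + 1 := by
      have := norm_sub_le x p
      linarith
    have h2 : ‖T (x - p)‖ ≤ nT * ‖x - p‖ := (T : E →L[ℂ] E).le_opNorm _
    have h3 : ‖(T (x - p)).1‖ ≤ ‖T (x - p)‖ := norm_fst_le _
    have h4 : ‖(T (x - p)).1‖ ≤ nT * (2 * R + 1) := by
      have : nT * ‖x - p‖ ≤ nT * (2 * R + 1) := mul_le_mul_of_nonneg_left h1 hnT0
      linarith
    have h5 : ‖(d : ℂ) * (T (x - p)).1‖ < 1 := by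
      rw [norm_mul, hdn]
      calc d * ‖(T (x - p)).1‖ ≤ d * (nT * (2 * R + 1)) := mul_le_mul_of_nonneg_left h4 hd0.le
        _ < 1 := by
          rw [hd, div_mul_eq_mul_div, div_lt_one (by positivity)]
          nlinarith
    intro h6
    have h7 : (d : ℂ) * (T (x - p)).1 = -1 := by linear_combination h6
    rw [h7] at h5
    simp at h5
  have hLne : L ⊆ Zne := by
    rintro _ ⟨x, hx, rfl⟩
    exact hBne x hx
  obtain ⟨F, G, hF, hG, hGF, hFG, hFΨ⟩ := hautx Ψ Ξ hΨΞ L hLc hLne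
  have hFΨ' : ∀ x ∈ D, ∀ᶠ y in 𝓝 (B x), F y = Ψ y := fun x hx =>
    (eventually_nhdsSet_iff_forall.mp hFΨ) (B x) ⟨x, hx, rfl⟩
  have hφ : ∀ x ∈ D, F (B x) = Ψ (B x) := fun x hx => (hFΨ' x hx).self_of_nhds
  have hφne : ∀ x ∈ D, F (B x) ∈ Zne := fun x hx => by
    rw [hφ x hx]; exact hmap2 (hBne x hx)
  have hΞφ : ∀ x ∈ D, Ξ (F (B x)) = B x := fun x hx => by
    rw [hφ x hx]; exact hinv2 _ (hBne x hx)
  have hZo : IsOpen Zne := isOpen_ne_fun continuous_fst continuous_const
  have hsub : ball p ε' ⊆ D := by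
    intro x hx
    have h1 : ‖x - p‖ < ε' := by simpa [dist_eq_norm] using hx
    have h2 : ‖x‖ ≤ ‖p‖ + ‖x - p‖ := by
      calc ‖x‖ = ‖p + (x - p)‖ := by congr 1; abel
        _ ≤ _ := norm_add_le _ _
    have : ‖x‖ ≤ R + 1 := by linarith
    simpa [hD] using this
  refine ⟨F ∘ B, Bi ∘ G, ?_, ?_, ?_⟩
  · refine ⟨hF.comp hBr, hBir.comp hG, ?_, ?_, ?_, ?_, ?_, ?_⟩
    · intro x
      simp only [Function.comp_apply]
      rw [hGF, hBiB]
    · intro x
      simp only [Function.comp_apply]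
      rw [hBBi, hFG]
    · intro x hx
      have h1 : AnalyticAt ℂ (Ψ ∘ B) x := (han2 _ (hBne x hx)).comp (hBa x (mem_univ _))
      refine h1.congr ?_
      have h2 : ∀ᶠ y in 𝓝 x, F (B y) = Ψ (B y) :=
        (hBc.continuous.continuousAt (x := x)).eventually (hFΨ' x hx)
      filter_upwards [h2] with y hy
      exact hy.symm
    · rintro _ ⟨x, hx, rfl⟩
      have h1 : AnalyticAt ℂ (Bi ∘ Ξ) ((F ∘ B) x) :=
        (hBia _ (mem_univ _)).comp (han1 _ (hφne x hx))
      refine h1.congr ?_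
      have hGx : G ((F ∘ B) x) = B x := hGF _
      have hGc : Tendsto G (𝓝 ((F ∘ B) x)) (𝓝 (B x)) := by
        have := hG.continuous.continuousAt (x := (F ∘ B) x)
        unfold ContinuousAt at this
        rwa [hGx] at this
      have h2 : ∀ᶠ y in 𝓝 ((F ∘ B) x), F (G y) = Ψ (G y) := hGc.eventually (hFΨ' x hx)
      have h3 : ∀ᶠ y in 𝓝 ((F ∘ B) x), G y ∈ Zne :=
        hGc.eventually (hZo.mem_nhds (hBne x hx))
      filter_upwards [h2, h3] with y hy hy3
      rw [hFG] at hy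
      show Bi (Ξ y) = Bi (G y)
      congr 1
      conv_lhs => rw [hy]
      exact hinv2 _ hy3
    · intro x hx
      exact hφne x hx
    · intro e0 he0
      set e1 : E := T.symm (1, 0) with he1
      set e2 : E := T.symm (0, 1) with he2
      have hlin : ∀ u v : ℂ, T.symm (u, v) = u • e1 + v • e2 := by
        intro u v
        have : ((u, v) : E) = u • ((1, 0) : E) + v • ((0, 1) : E) := by
          apply Prod.ext <;> simp
        rw [this, map_add, map_smul, map_smul]
      set K : ℝ := ‖e1‖ / d + ‖e2‖ + 1 with hK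
      have hK0 : 0 < K := by positivity
      obtain ⟨P', Q', N, hP', hQ', happ⟩ := halg Ξ Ψ hΞΨ ((F ∘ B) '' D)
        (hDc.image (hF.continuous.comp hBc.continuous))
        (by rintro _ ⟨x, hx, rfl⟩; exact hφne x hx) (e0 / K) (by positivity)
      have hfst : AnalyticOnNhd ℂ (fun y : E => y.1 ^ N) univ := fun y _ =>
        (analyticAt_fst).pow N
      refine ⟨fun y => p.1 * y.1 ^ N + (P' y - y.1 ^ N) / d * e1.1 + Q' y * e2.1,
        fun y => p.2 * y.1 ^ N + (P' y - y.1 ^ N) / d * e1.2 + Q' y * e2.2, N, ?_, ?_, ?_⟩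
      · intro y hy
        exact ((analyticAt_const.mul (hfst y hy)).add
          ((((hP' y hy).sub (hfst y hy)).div analyticAt_const hdc).mul analyticAt_const)).add
          ((hQ' y hy).mul analyticAt_const)
      · intro y hy
        exact ((analyticAt_const.mul (hfst y hy)).add
          ((((hP' y hy).sub (hfst y hy)).div analyticAt_const hdc).mul analyticAt_const)).add
          ((hQ' y hy).mul analyticAt_const)
      · intro x hx
        obtain ⟨ha1, ha2⟩ := happ _ ⟨x, hx, rfl⟩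
        set y := (F ∘ B) x with hy
        have hy0 : y.1 ≠ 0 := hφne x hx
        have hyN : y.1 ^ N ≠ 0 := pow_ne_zero _ hy0
        have hΞy : Ξ y = B x := hΞφ x hx
        have hx1 : x = p + (((Ξ y).1 - 1) / (d : ℂ)) • e1 + (Ξ y).2 • e2 := by
          rw [hΞy]
          conv_lhs => rw [← hBiB x]
          simp only [hBi]
          rw [hlin]
          abel
        have hx11 : x.1 = p.1 + ((Ξ y).1 - 1) / (d : ℂ) * e1.1 + (Ξ y).2 * e2.1 := by
          conv_lhs => rw [hx1]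
          simp
        have hx12 : x.2 = p.2 + ((Ξ y).1 - 1) / (d : ℂ) * e1.2 + (Ξ y).2 * e2.2 := by
          conv_lhs => rw [hx1]
          simp
        have hbd : ∀ c1 c2 : ℂ, ‖c1‖ ≤ ‖e1‖ → ‖c2‖ ≤ ‖e2‖ →
            ‖((Ξ y).1 - P' y / y.1 ^ N) / (d : ℂ) * c1 + ((Ξ y).2 - Q' y / y.1 ^ N) * c2‖ < e0 := by
          intro c1 c2 hc1 hc2
          have h1 : ‖((Ξ y).1 - P' y / y.1 ^ N) / (d : ℂ) * c1‖ ≤ (e0 / K) * (‖e1‖ / d) := by
            rw [norm_mul, norm_div, hdn]
            calc ‖(Ξ y).1 - P' y / y.1 ^ N‖ / d * ‖c1‖ ≤ (e0 / K) / d * ‖e1‖ := by gcongr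
              _ = _ := by ring
          have h2 : ‖((Ξ y).2 - Q' y / y.1 ^ N) * c2‖ ≤ (e0 / K) * ‖e2‖ := by
            rw [norm_mul]
            gcongr
          have h3 := norm_add_le (((Ξ y).1 - P' y / y.1 ^ N) / (d : ℂ) * c1)
            (((Ξ y).2 - Q' y / y.1 ^ N) * c2)
          have h4 : (e0 / K) * (‖e1‖ / d) + (e0 / K) * ‖e2‖ < e0 := by
            have h5 : (e0 / K) * (‖e1‖ / d) + (e0 / K) * ‖e2‖ = (e0 / K) * (K - 1) := by
              rw [hK]; ring
            rw [h5]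
            have h6 : (e0 / K) * (K - 1) = e0 - e0 / K := by field_simp
            rw [h6]
            have : 0 < e0 / K := by positivity
            linarith
          linarith
        constructor
        · have e : x.1 - (p.1 * y.1 ^ N + (P' y - y.1 ^ N) / d * e1.1 + Q' y * e2.1) / y.1 ^ N
              = ((Ξ y).1 - P' y / y.1 ^ N) / (d : ℂ) * e1.1
                + ((Ξ y).2 - Q' y / y.1 ^ N) * e2.1 := by
            rw [hx11]; field_simp; ring
          rw [e]
          exact hbd _ _ (norm_fst_le _) (norm_fst_le _)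
        · have e : x.2 - (p.2 * y.1 ^ N + (P' y - y.1 ^ N) / d * e1.2 + Q' y * e2.2) / y.1 ^ N
              = ((Ξ y).1 - P' y / y.1 ^ N) / (d : ℂ) * e1.2
                + ((Ξ y).2 - Q' y / y.1 ^ N) * e2.2 := by
            rw [hx12]; field_simp; ring
          rw [e]
          exact hbd _ _ (norm_snd_le _) (norm_snd_le _)
  · intro y hy
    have hy0 : y ∈ Zne := hYne hy
    obtain ⟨h1, h2⟩ := hΞY y hy
    have h3 := hsmall (Ξ y) h1 h2
    have hxb : Bi (Ξ y) ∈ ball p ε' := by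
      rw [mem_ball, dist_eq_norm]; exact h3
    refine ⟨Bi (Ξ y), ball_subset_ball hε'2 hxb, ?_⟩
    show F (B (Bi (Ξ y))) = y
    rw [hφ _ (hsub hxb), hBBi]
    exact hinv1 y hy0
  · have haD : a ∈ D := by
      have : ‖a‖ ≤ R + 1 := by linarith
      simpa [hD] using this
    show F (B a) = q
    rw [hφ a haD]
    have hBa1 : B a = (1, 1) := by
      simp only [hB]
      rw [hT]
      simp
    rw [hBa1, ← hΞq]
    apply hinv1
    show (1 / 2 : ℂ) ≠ 0
    norm_num

end Pool.Agent.H62.KC
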