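import Pool.Agent.H62.KC.LE

open Set Metric Filter Topology
open scoped ContDiff

noncomputable section

namespace Pool.Agent.H62.KC

open Pool.Agent.H93.KC hiding X
open Polynomial

lemma one_le_norm_of_G1 {z : ℂ} (hz : z ∈ G1) : 1 ≤ ‖z‖ := by
  have h2 : ‖z - 1‖ = 2 := hz.1
  have h := norm_sub_le z 1
  have h4 : ‖(1 : ℂ)‖ = 1 := by simp
  linarith

lemma one_le_norm_of_G2 {z : ℂ} (hz : z ∈ G2) : 1 ≤ ‖z‖ := by
  have h2 : ‖z + 1‖ = 2 := hz.1
  have h := norm_add_le z 1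
  have h4 : ‖(1 : ℂ)‖ = 1 := by simp
  linarith

lemma norm_le_of_G1 {z : ℂ} (hz : z ∈ G1) : ‖z‖ ≤ 3 := by
  have h2 : ‖z - 1‖ = 2 := hz.1
  have : ‖z‖ ≤ ‖z - 1‖ + ‖(1 : ℂ)‖ := by
    calc ‖z‖ = ‖(z - 1) + 1‖ := by ring_nf
      _ ≤ _ := norm_add_le _ _
  have h4 : ‖(1 : ℂ)‖ = 1 := by simp
  linarith

lemma norm_aF_le {z : ℂ} (hz : ‖z‖ ≤ 3) : ‖aF z‖ ≤ 8 := by
  unfold aF
  rw [Complex.norm_exp]
  have h1 : (z * ((Real.log 2 : ℝ) : ℂ)).re = z.re * Real.log 2 := by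
    rw [Complex.re_mul_ofReal]
  rw [h1]
  have hl0 : 0 < Real.log 2 := Real.log_pos (by norm_num)
  have h2 : z.re ≤ 3 := le_trans (Complex.re_le_norm z) hz
  have h3 : z.re * Real.log 2 ≤ Real.log 8 := by
    have : Real.log 8 = 3 * Real.log 2 := by
      rw [show (8 : ℝ) = 2 ^ 3 by norm_num, Real.log_pow]; norm_num
    rw [this]
    nlinarith
  calc Real.exp (z.re * Real.log 2) ≤ Real.exp (Real.log 8) := Real.exp_le_exp.mpr h3
    _ = 8 := Real.exp_log (by norm_num)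

/-- LA -/
theorem la (hG : T_GAM) : T_LA := by
  intro ε hε
  obtain ⟨G, hGc, hG1, hG2⟩ := glue isClosed_G1 isClosed_G2
    (f := fun z => -8 * (z ^ 2 + 3)) (g := fun _ => 0)
    (by fun_prop) continuousOn_const (fun z hz1 hz2 => by
      have h1 : ‖z - 1‖ = 2 := hz1.1
      have h2 : ‖z + 1‖ = 2 := hz2.1
      have h3 : Complex.normSq (z - 1) = 4 := by
        rw [Complex.normSq_eq_norm_sq, h1]; norm_num
      have h4 : Complex.normSq (z + 1) = 4 := by
        rw [Complex.normSq_eq_norm_sq, h2]; norm_num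
      simp only [Complex.normSq_apply, Complex.sub_re, Complex.one_re, Complex.sub_im,
        Complex.one_im, Complex.add_re, Complex.add_im] at h3 h4
      have h5 : z.re = 0 := by nlinarith
      rw [h5] at h3
      have h6 : z.im * z.im = 3 := by nlinarith
      have h7 : z ^ 2 = -3 := by
        apply Complex.ext
        · simp [pow_two, h5, h6]
        · simp [pow_two, h5]
      rw [h7]; norm_num)
  obtain ⟨p, N, hp⟩ := hG G hGc (ε / 4) (by positivity)
  set c : ℂ := 1000 - p.eval (1 / 2) / (1 / 2) ^ N with hc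
  obtain ⟨M, hM⟩ : ∃ M : ℕ, (1 / 2 : ℝ) ^ M < (ε / 4) / (‖c‖ + 1) :=
    exists_pow_lt_of_lt_one (by positivity) (by norm_num)
  set P : ℂ[X] := p * X ^ M + C (c / 2 ^ M) * X ^ N with hP
  have hPe : ∀ z : ℂ, z ≠ 0 → P.eval z / z ^ (N + M) = p.eval z / z ^ N + c / (2 * z) ^ M := by
    intro z hz
    simp only [hP, Polynomial.eval_add, Polynomial.eval_mul, Polynomial.eval_pow,
      Polynomial.eval_X, Polynomial.eval_C]
    rw [pow_add, mul_pow]
    field_simp
  have hcor : ∀ z : ℂ, 1 ≤ ‖z‖ → ‖c / (2 * z) ^ M‖ < ε / 4 := by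
    intro z hz
    have hK' : 0 < ‖c‖ + 1 := by positivity
    have e : ‖c / (2 * z) ^ M‖ = ‖c‖ * (1 / (2 * ‖z‖)) ^ M := by
      rw [norm_div, norm_pow, norm_mul]
      have : ‖(2 : ℂ)‖ = 2 := by simp
      rw [this, div_pow, one_pow]; ring
    rw [e]
    have h1 : (1 / (2 * ‖z‖)) ^ M ≤ (1 / 2 : ℝ) ^ M := by
      apply pow_le_pow_left₀ (by positivity)
      apply one_div_le_one_div_of_le (by norm_num)
      linarith
    have h2 : (1 / (2 * ‖z‖)) ^ M < (ε / 4) / (‖c‖ + 1) := lt_of_le_of_lt h1 hM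
    calc ‖c‖ * (1 / (2 * ‖z‖)) ^ M ≤ (‖c‖ + 1) * (1 / (2 * ‖z‖)) ^ M := by
          have : 0 ≤ (1 / (2 * ‖z‖)) ^ M := by positivity
          nlinarith
      _ < (‖c‖ + 1) * ((ε / 4) / (‖c‖ + 1)) := mul_lt_mul_of_pos_left h2 hK'
      _ = ε / 4 := by field_simp
  have hmain : ∀ z ∈ G1 ∪ G2, ‖P.eval z / z ^ (N + M) - G z‖ < ε := by
    intro z hz
    have hz1 : 1 ≤ ‖z‖ := by
      rcases hz with hz | hz
      · exact one_le_norm_of_G1 hz
      · exact one_le_norm_of_G2 hz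
    have hz0 : z ≠ 0 := by
      rintro rfl
      simp at hz1
      linarith
    rw [hPe z hz0]
    have e : p.eval z / z ^ N + c / (2 * z) ^ M - G z
        = (p.eval z / z ^ N - G z) + c / (2 * z) ^ M := by ring
    rw [e]
    have h1 := hp z hz
    have h2 := hcor z hz1
    have h3 := norm_add_le (p.eval z / z ^ N - G z) (c / (2 * z) ^ M)
    linarith
  refine ⟨_, _, Aut.wshear P (N + M), ?_, ?_⟩
  · rintro ⟨z, w⟩ hx
    rcases hx with ⟨hz, hw⟩ | ⟨hz, hw⟩
    · have hz : z ∈ G1 := hz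
      have hw : ‖w - bF z‖ ≤ ‖aF z‖ := hw
      refine ⟨(z, w + G z), Or.inl ⟨hz, ?_⟩, dist_lt_of ?_ ?_⟩
      · show ‖w + G z + 32‖ ≤ 8
        have e : w + G z + 32 = w - bF z := by
          rw [hG1 z hz]; unfold bF; ring
        rw [e]
        exact hw.trans (norm_aF_le (norm_le_of_G1 hz))
      · show ‖z - z‖ < ε
        simpa using hε
      · show ‖w + P.eval z / z ^ (N + M) - (w + G z)‖ < ε
        have e : w + P.eval z / z ^ (N + M) - (w + G z) = P.eval z / z ^ (N + M) - G z := by ring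
        rw [e]
        exact hmain z (Or.inl hz)
    · have hz : z ∈ G2 := hz
      have hw : ‖w‖ ≤ 1 := hw
      refine ⟨(z, w), Or.inr ⟨hz, hw⟩, dist_lt_of ?_ ?_⟩
      · show ‖z - z‖ < ε
        simpa using hε
      · show ‖w + P.eval z / z ^ (N + M) - w‖ < ε
        have e : w + P.eval z / z ^ (N + M) - w = P.eval z / z ^ (N + M) - G z := by
          rw [hG2 z hz]; ring
        rw [e]
        exact hmain z (Or.inr hz)
  · refine dist_lt_of ?_ ?_
    · show ‖(1 / 2 : ℂ) - 1 / 2‖ < ε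
      simpa using hε
    · show ‖(0 : ℂ) + P.eval (1 / 2) / (1 / 2) ^ (N + M) - 1000‖ < ε
      rw [hPe _ (by norm_num)]
      have e : (0 : ℂ) + (p.eval (1 / 2) / (1 / 2) ^ N + c / (2 * (1 / 2)) ^ M) - 1000 = 0 := by
        rw [hc]
        norm_num
      rw [e]; simpa using hε

end Pool.Agent.H62.KC
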