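import Pool.Agent.H62.KC.LC

open Set Metric Filter Topology
open scoped ContDiff

noncomputable section

namespace Pool.Agent.H62.KC

open Pool.Agent.H93.KC hiding X
open Polynomial

/-- the smoothstep polynomial -/
def sp : ℂ[X] := 3 * X ^ 2 - 2 * X ^ 3

lemma sp_eval (t : ℂ) : sp.eval t = 3 * t ^ 2 - 2 * t ^ 3 := by
  simp [sp]

/-- iterates -/
def si : ℕ → ℂ[X]
  | 0 => X
  | n + 1 => sp.comp (si n)

lemma si_eval_succ (n : ℕ) (t : ℂ) : (si (n + 1)).eval t = sp.eval ((si n).eval t) := by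
  simp [si, Polynomial.eval_comp]

lemma si_small (n : ℕ) (t : ℂ) (ht : ‖t‖ ≤ 1 / 4) : ‖(si n).eval t‖ ≤ 1 / 4 * (7 / 8) ^ n := by
  induction n with
  | zero => simpa [si] using ht
  | succ n ih =>
    rw [si_eval_succ, sp_eval]
    set u := (si n).eval t
    have h1 : (7 / 8 : ℝ) ^ n ≤ 1 := pow_le_one₀ (by norm_num) (by norm_num)
    have hu : ‖u‖ ≤ 1 / 4 := by linarith
    have e : 3 * u ^ 2 - 2 * u ^ 3 = u * (u * (3 - 2 * u)) := by ring
    have h3 : ‖3 - 2 * u‖ ≤ 7 / 2 := by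
      calc ‖3 - 2 * u‖ ≤ ‖(3 : ℂ)‖ + ‖2 * u‖ := norm_sub_le _ _
        _ = 3 + 2 * ‖u‖ := by simp
        _ ≤ 7 / 2 := by linarith
    rw [e, norm_mul, norm_mul, pow_succ]
    have h4 : ‖u‖ * ‖3 - 2 * u‖ ≤ 7 / 8 := by nlinarith [norm_nonneg u, norm_nonneg (3 - 2 * u)]
    calc ‖u‖ * (‖u‖ * ‖3 - 2 * u‖) ≤ (1 / 4 * (7 / 8) ^ n) * (7 / 8) :=
          mul_le_mul ih h4 (by positivity) (by positivity)
      _ = _ := by ring

lemma si_one (n : ℕ) (t : ℂ) (ht : ‖t - 1‖ ≤ 1 / 4) :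
    ‖(si n).eval t - 1‖ ≤ 1 / 4 * (7 / 8) ^ n := by
  have key : ∀ n, (si n).eval t = 1 - (si n).eval (1 - t) := by
    intro n
    induction n with
    | zero => simp [si]
    | succ n ih =>
      rw [si_eval_succ, si_eval_succ, ih, sp_eval, sp_eval]
      ring
  rw [key n]
  have h : ‖1 - t‖ ≤ 1 / 4 := by rwa [norm_sub_rev]
  have := si_small n (1 - t) h
  have e : 1 - (si n).eval (1 - t) - 1 = -((si n).eval (1 - t)) := by ring
  rw [e, norm_neg]
  exact this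

/-- polynomials that are close to prescribed constants on two discs and have a given value far
away -/
lemma exists_poly (δ : ℝ) (hδ : 0 < δ) : ∃ f : ℂ[X],
    (∀ w : ℂ, ‖w + 32‖ ≤ 8 → ‖f.eval w - (Real.log 4 : ℝ)‖ < δ) ∧
    (∀ w : ℂ, ‖w‖ ≤ 1 → ‖f.eval w‖ < δ) ∧ f.eval 1000 = (Real.log 200 : ℝ) := by
  have hl : ‖((Real.log 4 : ℝ) : ℂ)‖ ≤ 2 := by
    rw [Complex.norm_real, Real.norm_of_nonneg (Real.log_nonneg (by norm_num))]
    have : Real.log 4 = 2 * Real.log 2 := by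
      rw [show (4 : ℝ) = 2 ^ 2 by norm_num, Real.log_pow]; norm_num
    have := Real.log_two_lt_d9
    linarith
  obtain ⟨n, hn⟩ : ∃ n : ℕ, (7 / 8 : ℝ) ^ n < δ := exists_pow_lt_of_lt_one hδ (by norm_num)
  set g : ℂ[X] := C ((Real.log 4 : ℝ) : ℂ) * (si n).comp (C (-1 / 32) * X) with hg
  have hge : ∀ w, g.eval w = ((Real.log 4 : ℝ) : ℂ) * (si n).eval (-1 / 32 * w) := by
    intro w
    simp [hg, Polynomial.eval_comp]
  have hg1 : ∀ w : ℂ, ‖w + 32‖ ≤ 8 → ‖g.eval w - (Real.log 4 : ℝ)‖ ≤ 1 / 2 * (7 / 8) ^ n := by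
    intro w hw
    rw [hge]
    have h1 : ‖-1 / 32 * w - 1‖ ≤ 1 / 4 := by
      have : -1 / 32 * w - 1 = -1 / 32 * (w + 32) := by ring
      rw [this, norm_mul]
      have h32 : ‖(-1 / 32 : ℂ)‖ = 1 / 32 := by simp
      rw [h32]; linarith
    have h2 := si_one n _ h1
    have e : ((Real.log 4 : ℝ) : ℂ) * (si n).eval (-1 / 32 * w) - (Real.log 4 : ℝ)
        = ((Real.log 4 : ℝ) : ℂ) * ((si n).eval (-1 / 32 * w) - 1) := by ring
    rw [e, norm_mul]
    calc _ ≤ 2 * (1 / 4 * (7 / 8 : ℝ) ^ n) := mul_le_mul hl h2 (norm_nonneg _) (by norm_num)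
      _ = _ := by ring
  have hg2 : ∀ w : ℂ, ‖w‖ ≤ 1 → ‖g.eval w‖ ≤ 1 / 2 * (7 / 8) ^ n := by
    intro w hw
    rw [hge]
    have h1 : ‖-1 / 32 * w‖ ≤ 1 / 4 := by
      rw [norm_mul]
      have h32 : ‖(-1 / 32 : ℂ)‖ = 1 / 32 := by simp
      rw [h32]; linarith
    have h2 := si_small n _ h1
    rw [norm_mul]
    calc _ ≤ 2 * (1 / 4 * (7 / 8 : ℝ) ^ n) := mul_le_mul hl h2 (norm_nonneg _) (by norm_num)
      _ = _ := by ring
  set K : ℂ := ((Real.log 200 : ℝ) : ℂ) - g.eval 1000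
  obtain ⟨M, hM⟩ : ∃ M : ℕ, (1 / 25 : ℝ) ^ M < δ / (2 * (‖K‖ + 1)) :=
    exists_pow_lt_of_lt_one (by positivity) (by norm_num)
  have hcor : ∀ w : ℂ, ‖w‖ ≤ 40 → ‖K * (w / 1000) ^ M‖ < δ / 2 := by
    intro w hw
    rw [norm_mul, norm_pow, norm_div]
    have h1000 : ‖(1000 : ℂ)‖ = 1000 := by simp
    rw [h1000]
    have h1 : (‖w‖ / 1000) ^ M ≤ (1 / 25 : ℝ) ^ M := by
      apply pow_le_pow_left₀ (by positivity)
      linarith
    have h2 : (‖w‖ / 1000) ^ M < δ / (2 * (‖K‖ + 1)) := lt_of_le_of_lt h1 hM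
    have hK : 0 < ‖K‖ + 1 := by positivity
    calc ‖K‖ * (‖w‖ / 1000) ^ M ≤ (‖K‖ + 1) * (‖w‖ / 1000) ^ M := by
          have : 0 ≤ (‖w‖ / 1000) ^ M := by positivity
          nlinarith
      _ < (‖K‖ + 1) * (δ / (2 * (‖K‖ + 1))) := by
          exact mul_lt_mul_of_pos_left h2 hK
      _ = δ / 2 := by field_simp
  refine ⟨g + C K * (C (1 / 1000) * X) ^ M, ?_, ?_, ?_⟩
  · intro w hw
    have hw40 : ‖w‖ ≤ 40 := by
      have : ‖w‖ ≤ ‖w + 32‖ + ‖(32 : ℂ)‖ := by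
        calc ‖w‖ = ‖(w + 32) - 32‖ := by ring_nf
          _ ≤ _ := norm_sub_le _ _
      have h32 : ‖(32 : ℂ)‖ = 32 := by simp
      linarith
    have e : (g + C K * (C (1 / 1000) * X) ^ M).eval w - (Real.log 4 : ℝ)
        = (g.eval w - (Real.log 4 : ℝ)) + K * (w / 1000) ^ M := by
      simp [Polynomial.eval_add, Polynomial.eval_mul, Polynomial.eval_pow]
      ring
    rw [e]
    have h1 := hg1 w hw
    have h2 := hcor w hw40
    have h3 := norm_add_le (g.eval w - ((Real.log 4 : ℝ) : ℂ)) (K * (w / 1000) ^ M)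
    linarith
  · intro w hw
    have e : (g + C K * (C (1 / 1000) * X) ^ M).eval w = g.eval w + K * (w / 1000) ^ M := by
      simp [Polynomial.eval_add, Polynomial.eval_mul, Polynomial.eval_pow]
      left; ring
    rw [e]
    have h1 := hg2 w hw
    have h2 := hcor w (by linarith)
    have h3 := norm_add_le (g.eval w) (K * (w / 1000) ^ M)
    linarith
  · simp [Polynomial.eval_add, Polynomial.eval_mul, Polynomial.eval_pow, K]

/-- LB -/
theorem lb : T_LB := by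
  intro ε hε
  obtain ⟨δ, hδ0, hδ1, hδε⟩ : ∃ δ : ℝ, 0 < δ ∧ δ ≤ 1 ∧ 24 * δ ≤ ε :=
    ⟨min ε 1 / 24, by positivity, by
      have := min_le_right ε 1
      linarith, by
      have := min_le_left ε 1
      linarith⟩
  obtain ⟨f, hf1, hf2, hf3⟩ := exists_poly δ hδ0
  refine ⟨_, _, Aut.zshear f, ?_, ?_⟩
  · rintro ⟨z, w⟩ hx
    have hexp4 : Complex.exp ((Real.log 4 : ℝ) : ℂ) = 4 := by
      rw [← Complex.ofReal_exp, Real.exp_log (by norm_num)]
      norm_num
    rcases hx with ⟨hz, hw⟩ | ⟨hz, hw⟩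
    · have hz : z ∈ G1 := hz
      have hw : ‖w + 32‖ ≤ 8 := hw
      have hz3 : ‖z‖ ≤ 3 := by
        have h2 : ‖z - 1‖ = 2 := hz.1
        have : ‖z‖ ≤ ‖z - 1‖ + ‖(1 : ℂ)‖ := by
          calc ‖z‖ = ‖(z - 1) + 1‖ := by ring_nf
            _ ≤ _ := norm_add_le _ _
        have h4 : ‖(1 : ℂ)‖ = 1 := by simp
        linarith
      refine ⟨(4 * z, w), Or.inl ⟨?_, hw⟩, dist_lt_of ?_ ?_⟩
      · constructor
        · show ‖4 * z - 4‖ = 8
          have : 4 * z - 4 = 4 * (z - 1) := by ring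
          rw [this, norm_mul, hz.1]
          simp; norm_num
        · show 1 / 25 ≤ ‖4 * z + 4‖
          have : 4 * z + 4 = 4 * (z + 1) := by ring
          rw [this, norm_mul]
          have h4 : ‖(4 : ℂ)‖ = 4 := by simp
          rw [h4]
          have := hz.2
          linarith
      · show ‖z * Complex.exp (f.eval w) - 4 * z‖ < ε
        set u := f.eval w - ((Real.log 4 : ℝ) : ℂ)
        have hu : ‖u‖ < δ := hf1 w hw
        have e : z * Complex.exp (f.eval w) - 4 * z = 4 * z * (Complex.exp u - 1) := by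
          have : f.eval w = ((Real.log 4 : ℝ) : ℂ) + u := by simp [u]
          rw [this, Complex.exp_add, hexp4]; ring
        have h3 := Complex.norm_exp_sub_one_le (x := u) (by linarith)
        rw [e, norm_mul, norm_mul]
        have h4 : ‖(4 : ℂ)‖ = 4 := by simp
        rw [h4]
        calc 4 * ‖z‖ * ‖Complex.exp u - 1‖ ≤ 12 * (2 * ‖u‖) := by
              apply mul_le_mul _ h3 (norm_nonneg _) (by norm_num)
              linarith
          _ < 24 * δ := by linarith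
          _ ≤ ε := hδε
      · show ‖w - w‖ < ε
        simpa using hε
    · have hz : z ∈ G2 := hz
      have hw : ‖w‖ ≤ 1 := hw
      have hz3 : ‖z‖ ≤ 3 := by
        have h2 : ‖z + 1‖ = 2 := hz.1
        have : ‖z‖ ≤ ‖z + 1‖ + ‖(1 : ℂ)‖ := by
          calc ‖z‖ = ‖(z + 1) - 1‖ := by ring_nf
            _ ≤ _ := norm_sub_le _ _
        have h4 : ‖(1 : ℂ)‖ = 1 := by simp
        linarith
      refine ⟨(z, w), Or.inr ⟨hz, hw⟩, dist_lt_of ?_ ?_⟩
      · show ‖z * Complex.exp (f.eval w) - z‖ < ε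
        have hu : ‖f.eval w‖ < δ := hf2 w hw
        have e : z * Complex.exp (f.eval w) - z = z * (Complex.exp (f.eval w) - 1) := by ring
        have h3 := Complex.norm_exp_sub_one_le (x := f.eval w) (by linarith)
        rw [e, norm_mul]
        calc ‖z‖ * ‖Complex.exp (f.eval w) - 1‖ ≤ 3 * (2 * ‖f.eval w‖) :=
              mul_le_mul hz3 h3 (norm_nonneg _) (by norm_num)
          _ < 24 * δ := by linarith
          _ ≤ ε := hδε
      · show ‖w - w‖ < ε
        simpa using hε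
  · refine dist_lt_of ?_ ?_
    · show ‖(1 / 2 : ℂ) * Complex.exp (f.eval 1000) - 100‖ < ε
      rw [hf3, ← Complex.ofReal_exp, Real.exp_log (by norm_num)]
      have : (1 / 2 : ℂ) * ((200 : ℝ) : ℂ) - 100 = 0 := by push_cast; norm_num
      rw [this]; simpa using hε
    · show ‖(1000 : ℂ) - 1000‖ < ε
      simpa using hε

end Pool.Agent.H62.KC
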