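import Pool.Agent.H93.KC.Targets

open Set Metric Filter Topology
open scoped ContDiff

noncomputable section

namespace Pool.Agent.H62.KC

open Pool.Agent.H93.KC

lemma dist_lt_of {x y : E} {ε : ℝ} (h1 : ‖x.1 - y.1‖ < ε) (h2 : ‖x.2 - y.2‖ < ε) :
    dist x y < ε := by
  rw [Prod.dist_eq, dist_eq_norm, dist_eq_norm]
  exact max_lt h1 h2

/-- LC -/
theorem lc : T_LC := by
  intro ε hε
  have hc : (0 : ℝ) < ε / 2000 := by positivity
  have hn : ‖((ε / 2000 : ℝ) : ℂ)‖ = ε / 2000 := by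
    rw [Complex.norm_real, Real.norm_of_nonneg hc.le]
  refine ⟨_, _, Aut.scale ((ε / 2000 : ℝ) : ℂ) ?_, ?_, ?_⟩
  · exact_mod_cast hc.ne'
  · rintro ⟨z, w⟩ hx
    have hz : z ∈ G4 ∪ G2 := by
      rcases hx with hx | hx
      · exact Or.inl hx.1
      · exact Or.inr hx.1
    have hw : ‖w‖ ≤ 40 := by
      rcases hx with hx | hx
      · have h2 : ‖w + 32‖ ≤ 8 := hx.2
        have : ‖w‖ ≤ ‖w + 32‖ + ‖(32 : ℂ)‖ := by
          calc ‖w‖ = ‖(w + 32) - 32‖ := by ring_nf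
            _ ≤ _ := norm_sub_le _ _
        have h32 : ‖(32 : ℂ)‖ = 32 := by simp
        linarith
      · have h2 : ‖w‖ ≤ 1 := hx.2
        linarith
    refine ⟨(z, 0), ⟨hz, rfl⟩, dist_lt_of ?_ ?_⟩
    · simpa using hε
    · show ‖((ε / 2000 : ℝ) : ℂ) * w - 0‖ < ε
      rw [sub_zero, norm_mul, hn]
      nlinarith [norm_nonneg w]
  · refine dist_lt_of ?_ ?_
    · simpa using hε
    · show ‖((ε / 2000 : ℝ) : ℂ) * 1000 - 0‖ < ε
      rw [sub_zero, norm_mul, hn]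
      have : ‖(1000 : ℂ)‖ = 1000 := by simp
      rw [this]; linarith

/-- LD -/
theorem ld : T_LD := by
  intro ε hε
  refine ⟨_, _, Aut.wshear Polynomial.X 0, ?_, ?_⟩
  · rintro ⟨z, w⟩ hx
    have hz : z ∈ G4 ∪ G2 := hx.1
    have hw : w = 0 := hx.2
    refine ⟨(z, z), ⟨hz, rfl⟩, dist_lt_of ?_ ?_⟩
    · simpa using hε
    · simpa [hw] using hε
  · refine dist_lt_of ?_ ?_
    · simpa using hε
    · simpa using hε

end Pool.Agent.H62.KC
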