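import Pool.Agent.H62.KC.LC

open Set Metric Filter Topology
open scoped ContDiff

noncomputable section

namespace Pool.Agent.H62.KC

open Pool.Agent.H93.KC hiding X
open Polynomial

lemma glue {S T : Set ℂ} (hS : IsClosed S) (hT : IsClosed T) {f g : ℂ → ℂ}
    (hf : ContinuousOn f S) (hg : ContinuousOn g T) (h : ∀ z ∈ S, z ∈ T → f z = g z) :
    ∃ H : ℂ → ℂ, ContinuousOn H (S ∪ T) ∧ (∀ z ∈ S, H z = f z) ∧ ∀ z ∈ T, H z = g z := by
  classical
  refine ⟨fun z => if z ∈ S then f z else g z, ?_, ?_, ?_⟩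
  · apply ContinuousOn.union_of_isClosed _ _ hS hT
    · exact hf.congr (fun z hz => by simp [hz])
    · refine hg.congr (fun z hz => ?_)
      by_cases hzS : z ∈ S
      · simp [hzS, h z hzS hz]
      · simp [hzS]
  · intro z hz; simp [hz]
  · intro z hz
    by_cases hzS : z ∈ S
    · simp [hzS, h z hzS hz]
    · simp [hzS]

lemma isClosed_G4 : IsClosed G4 := by
  have h1 : IsClosed {z : ℂ | ‖z - 4‖ = 8} :=
    isClosed_eq (by fun_prop) continuous_const
  have h2 : IsClosed {z : ℂ | (1 / 25 : ℝ) ≤ ‖z + 4‖} :=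
    isClosed_le continuous_const (by fun_prop)
  exact h1.inter h2

lemma isClosed_G2 : IsClosed G2 := by
  have h1 : IsClosed {z : ℂ | ‖z + 1‖ = 2} :=
    isClosed_eq (by fun_prop) continuous_const
  have h2 : IsClosed {z : ℂ | (1 / 100 : ℝ) ≤ ‖z - 1‖} :=
    isClosed_le continuous_const (by fun_prop)
  exact h1.inter h2

lemma isClosed_G1 : IsClosed G1 := by
  have h1 : IsClosed {z : ℂ | ‖z - 1‖ = 2} :=
    isClosed_eq (by fun_prop) continuous_const
  have h2 : IsClosed {z : ℂ | (1 / 100 : ℝ) ≤ ‖z + 1‖} :=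
    isClosed_le continuous_const (by fun_prop)
  exact h1.inter h2

lemma G4_slit {z : ℂ} (hz : z ∈ G4) : z ∈ Complex.slitPlane := by
  rw [Complex.mem_slitPlane_iff]
  by_contra hcon
  push Not at hcon
  obtain ⟨h1, h2⟩ := hcon
  have hzr : z = ((z.re : ℝ) : ℂ) := by
    apply Complex.ext <;> simp [h2]
  have h3 : ‖z - 4‖ = 8 := hz.1
  have h4 : 1 / 25 ≤ ‖z + 4‖ := hz.2
  have e1 : z - 4 = ((z.re - 4 : ℝ) : ℂ) := by
    rw [hzr]; push_cast; simp
  have e2 : z + 4 = ((z.re + 4 : ℝ) : ℂ) := by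
    rw [hzr]; push_cast; simp
  rw [e1, Complex.norm_real, Real.norm_of_nonpos (by linarith)] at h3
  rw [e2] at h4
  have : z.re + 4 = 0 := by linarith
  rw [this] at h4
  norm_num at h4

lemma G2_slit {z : ℂ} (hz : z ∈ G2) : -z ∈ Complex.slitPlane := by
  rw [Complex.mem_slitPlane_iff]
  by_contra hcon
  push Not at hcon
  obtain ⟨h1, h2⟩ := hcon
  simp only [Complex.neg_re, Complex.neg_im, neg_eq_zero] at h1 h2
  have hzr : z = ((z.re : ℝ) : ℂ) := by
    apply Complex.ext <;> simp [h2]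
  have h3 : ‖z + 1‖ = 2 := hz.1
  have h4 : 1 / 100 ≤ ‖z - 1‖ := hz.2
  have e1 : z + 1 = ((z.re + 1 : ℝ) : ℂ) := by
    rw [hzr]; push_cast; simp
  have e2 : z - 1 = ((z.re - 1 : ℝ) : ℂ) := by
    rw [hzr]; push_cast; simp
  rw [e1, Complex.norm_real, Real.norm_of_nonneg (by linarith)] at h3
  rw [e2] at h4
  have : z.re - 1 = 0 := by linarith
  rw [this] at h4
  norm_num at h4

lemma norm_le_of_G4 {z : ℂ} (hz : z ∈ G4) : ‖z‖ ≤ 12 := by
  have h2 : ‖z - 4‖ = 8 := hz.1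
  have : ‖z‖ ≤ ‖z - 4‖ + ‖(4 : ℂ)‖ := by
    calc ‖z‖ = ‖(z - 4) + 4‖ := by ring_nf
      _ ≤ _ := norm_add_le _ _
  have h4 : ‖(4 : ℂ)‖ = 4 := by simp
  linarith

lemma norm_le_of_G2 {z : ℂ} (hz : z ∈ G2) : ‖z‖ ≤ 3 := by
  have h2 : ‖z + 1‖ = 2 := hz.1
  have : ‖z‖ ≤ ‖z + 1‖ + ‖(1 : ℂ)‖ := by
    calc ‖z‖ = ‖(z + 1) - 1‖ := by ring_nf
      _ ≤ _ := norm_sub_le _ _
  have h4 : ‖(1 : ℂ)‖ = 1 := by simp
  linarith

lemma exists_H : ∃ H : ℂ → ℂ, ContinuousOn H (G4 ∪ G2) ∧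
    ∀ z ∈ G4 ∪ G2, z * Complex.exp (H z) = 1 := by
  obtain ⟨H, hH, h4, h2⟩ := glue isClosed_G4 isClosed_G2
    (f := fun z => -Complex.log z)
    (g := fun z => -(Complex.log (-z) + Real.pi * Complex.I))
    (ContinuousOn.neg (ContinuousOn.clog continuousOn_id (fun z hz => G4_slit hz)))
    (ContinuousOn.neg (ContinuousOn.add
      (ContinuousOn.clog continuous_neg.continuousOn (fun z hz => G2_slit hz))
      continuousOn_const))
    (fun z hz4 hz2 => by
      exfalso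
      have h1 : ‖z - 4‖ = 8 := hz4.1
      have h2 : ‖z + 1‖ = 2 := hz2.1
      have : ‖z - 4‖ ≤ ‖z + 1‖ + ‖(5 : ℂ)‖ := by
        calc ‖z - 4‖ = ‖(z + 1) - 5‖ := by ring_nf
          _ ≤ _ := norm_sub_le _ _
      have h5 : ‖(5 : ℂ)‖ = 5 := by simp
      linarith)
  refine ⟨H, hH, ?_⟩
  rintro z (hz | hz)
  · have hz0 : z ≠ 0 := Complex.slitPlane_ne_zero (G4_slit hz)
    rw [h4 z hz, Complex.exp_neg, Complex.exp_log hz0, mul_inv_cancel₀ hz0]
  · have hz0 : -z ≠ 0 := Complex.slitPlane_ne_zero (G2_slit hz)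
    have hz1 : z ≠ 0 := by simpa using hz0
    rw [h2 z hz, Complex.exp_neg, Complex.exp_add, Complex.exp_log hz0, Complex.exp_pi_mul_I]
    simp [hz1]

/-- LE -/
theorem le (hZ : T_ZED) : T_LE := by
  intro ε hε
  obtain ⟨d, hd0, hd1, hdε⟩ : ∃ d : ℝ, 0 < d ∧ 2 * d ≤ 1 ∧ 5 * d ≤ ε :=
    ⟨min ε 1 / 5, by positivity, by
      have := min_le_right ε 1
      linarith, by
      have := min_le_left ε 1
      linarith⟩
  obtain ⟨H, hH, hH1⟩ := exists_H
  obtain ⟨p, hp⟩ := hZ H hH d hd0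
  set K : ℂ := ((Real.log (2 / 100) : ℝ) : ℂ) - p.eval 100 with hK
  obtain ⟨M, hM⟩ : ∃ M : ℕ, (12 / 100 : ℝ) ^ M < d / (‖K‖ + 1) :=
    exists_pow_lt_of_lt_one (by positivity) (by norm_num)
  have hcor : ∀ w : ℂ, ‖w‖ ≤ 12 → ‖K * (w / 100) ^ M‖ < d := by
    intro w hw
    rw [norm_mul, norm_pow, norm_div]
    have h1000 : ‖(100 : ℂ)‖ = 100 := by simp
    rw [h1000]
    have h1 : (‖w‖ / 100) ^ M ≤ (12 / 100 : ℝ) ^ M := by
      apply pow_le_pow_left₀ (by positivity)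
      linarith
    have h2 : (‖w‖ / 100) ^ M < d / (‖K‖ + 1) := lt_of_le_of_lt h1 hM
    have hK' : 0 < ‖K‖ + 1 := by positivity
    calc ‖K‖ * (‖w‖ / 100) ^ M ≤ (‖K‖ + 1) * (‖w‖ / 100) ^ M := by
          have : 0 ≤ (‖w‖ / 100) ^ M := by positivity
          nlinarith
      _ < (‖K‖ + 1) * (d / (‖K‖ + 1)) := by
          exact mul_lt_mul_of_pos_left h2 hK'
      _ = d := by field_simp
  set f : ℂ[X] := p + C K * (C (1 / 100) * X) ^ M with hf
  have hfe : ∀ w, f.eval w = p.eval w + K * (w / 100) ^ M := by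
    intro w
    simp [hf, Polynomial.eval_add, Polynomial.eval_mul, Polynomial.eval_pow]
    left; ring
  refine ⟨_, _, Aut.zshear f, ?_, ?_⟩
  · rintro ⟨z, w⟩ hx
    have hz : z ∈ G4 ∪ G2 := hx.1
    have hw : w = z := hx.2
    subst hw
    have hw12 : ‖w‖ ≤ 12 := by
      rcases hz with hz | hz
      · exact norm_le_of_G4 hz
      · have := norm_le_of_G2 hz; linarith
    refine ⟨(1, w), ⟨rfl, hz⟩, dist_lt_of ?_ ?_⟩
    · show ‖w * Complex.exp (f.eval w) - 1‖ < ε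
      set u := f.eval w - H w with hu
      have hu1 : ‖u‖ < 2 * d := by
        have e : u = (p.eval w - H w) + K * (w / 100) ^ M := by
          rw [hu, hfe]; ring
        rw [e]
        have h1 := hp w hz
        have h2 := hcor w hw12
        have h3 := norm_add_le (p.eval w - H w) (K * (w / 100) ^ M)
        linarith
      have e : w * Complex.exp (f.eval w) - 1 = Complex.exp u - 1 := by
        have : f.eval w = H w + u := by simp [u]
        rw [this, Complex.exp_add, ← mul_assoc, hH1 w hz, one_mul]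
      rw [e]
      have h3 := Complex.norm_exp_sub_one_le (x := u) (by linarith)
      linarith
    · show ‖w - w‖ < ε
      simpa using hε
  · refine dist_lt_of ?_ ?_
    · show ‖(100 : ℂ) * Complex.exp (f.eval 100) - 2‖ < ε
      have : f.eval 100 = ((Real.log (2 / 100) : ℝ) : ℂ) := by
        rw [hfe, hK, div_self (by norm_num), one_pow]; ring
      rw [this, ← Complex.ofReal_exp, Real.exp_log (by norm_num)]
      have : (100 : ℂ) * ((2 / 100 : ℝ) : ℂ) - 2 = 0 := by push_cast; norm_num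
      rw [this]; simpa using hε
    · show ‖(100 : ℂ) - 100‖ < ε
      simpa using hε

end Pool.Agent.H62.KC
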