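import Pool.Agent.H62.KC.LC

open Set Metric Filter Topology
open scoped ContDiff

noncomputable section

namespace Pool.Agent.H62.KC

open Pool.Agent.H93.KC

/-- LF -/
theorem lf : T_LF := by
  intro ε hε
  obtain ⟨c, hc0, hc1, hcε⟩ : ∃ c : ℝ, 0 < c ∧ 1000 * c ≤ 1 ∧ 1000 * c ≤ ε :=
    ⟨min ε 1 / 1000, by positivity, by
      have := min_le_right ε 1
      linarith, by
      have := min_le_left ε 1
      linarith⟩
  have hn : ‖(c : ℂ)‖ = c := by
    rw [Complex.norm_real, Real.norm_of_nonneg hc0.le]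
  have hl0 : 0 < Real.log 2 := Real.log_pos (by norm_num)
  have hl1 : Real.log 2 < 1 := by
    have := Real.log_two_lt_d9
    linarith
  have hnl : ‖((Real.log 2 : ℝ) : ℂ)‖ = Real.log 2 := by
    rw [Complex.norm_real, Real.norm_of_nonneg hl0.le]
  have key : ∀ u : ℂ, ‖u‖ ≤ 100 →
      ‖Complex.exp (-((Real.log 2 : ℝ) : ℂ) * ((c : ℂ) * u)) - 1‖ < ε ∧ ‖(c : ℂ) * u‖ < ε := by
    intro u hu
    have h1 : ‖(c : ℂ) * u‖ ≤ 100 * c := by
      rw [norm_mul, hn]
      nlinarith [norm_nonneg u]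
    have h2 : ‖-((Real.log 2 : ℝ) : ℂ) * ((c : ℂ) * u)‖ ≤ 100 * c := by
      rw [norm_mul, norm_neg, hnl]
      nlinarith [norm_nonneg ((c : ℂ) * u)]
    have h3 := Complex.norm_exp_sub_one_le (x := -((Real.log 2 : ℝ) : ℂ) * ((c : ℂ) * u))
      (by linarith)
    constructor
    · linarith
    · linarith
  refine ⟨_, _, Aut.comp _ _ _ _ (Aut.scale (c : ℂ) (by exact_mod_cast hc0.ne'))
    (Aut.comp _ _ _ _ (Aut.wshear (Polynomial.X - 1) 0)
      (Aut.zshear (Polynomial.C (-((Real.log 2 : ℝ) : ℂ)) * Polynomial.X))), ?_, ?_⟩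
  · rintro ⟨z, w⟩ hx
    have hz : z = 1 := hx.1
    have hw : w ∈ G4 ∪ G2 := hx.2
    have hw12 : ‖w‖ ≤ 12 := by
      rcases hw with hw | hw
      · have h2 : ‖w - 4‖ = 8 := hw.1
        have : ‖w‖ ≤ ‖w - 4‖ + ‖(4 : ℂ)‖ := by
          calc ‖w‖ = ‖(w - 4) + 4‖ := by ring_nf
            _ ≤ _ := norm_add_le _ _
        have h4 : ‖(4 : ℂ)‖ = 4 := by simp
        linarith
      · have h2 : ‖w + 1‖ = 2 := hw.1
        have : ‖w‖ ≤ ‖w + 1‖ + ‖(1 : ℂ)‖ := by
          calc ‖w‖ = ‖(w + 1) - 1‖ := by ring_nf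
            _ ≤ _ := norm_sub_le _ _
        have h4 : ‖(1 : ℂ)‖ = 1 := by simp
        linarith
    obtain ⟨h1, h2⟩ := key w (by linarith)
    refine ⟨(1, 0), rfl, dist_lt_of ?_ ?_⟩
    · simpa [hz] using h1
    · simpa [hz] using h2
  · obtain ⟨h1, h2⟩ := key 100 (by simp)
    refine dist_lt_of ?_ ?_
    · have h3 : (2 : ℂ) * Complex.exp (-((Real.log 2 : ℝ) : ℂ) * ((c : ℂ) * 100 + 1))
          = Complex.exp (-((Real.log 2 : ℝ) : ℂ) * ((c : ℂ) * 100)) := by
        rw [mul_add, Complex.exp_add, mul_one]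
        have h4 : Complex.exp (-((Real.log 2 : ℝ) : ℂ)) = 1 / 2 := by
          rw [← Complex.ofReal_neg, ← Complex.ofReal_exp, Real.exp_neg,
            Real.exp_log (by norm_num)]
          push_cast
          norm_num
        rw [h4]; ring
      have h5 : ((2 : ℂ) - 1) / 2 ^ 0 = 1 := by norm_num
      show ‖(2 : ℂ) * Complex.exp ((Polynomial.C (-((Real.log 2 : ℝ) : ℂ)) * Polynomial.X).eval
        ((c : ℂ) * 100 + (Polynomial.X - 1 : Polynomial ℂ).eval 2 / 2 ^ 0)) - 1‖ < ε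
      simp only [Polynomial.eval_mul, Polynomial.eval_C, Polynomial.eval_X, Polynomial.eval_sub,
        Polynomial.eval_one, h5]
      rw [h3]
      exact h1
    · show ‖(c : ℂ) * 100 + (Polynomial.X - 1 : Polynomial ℂ).eval 2 / 2 ^ 0 - 1‖ < ε
      have : (c : ℂ) * 100 + (Polynomial.X - 1 : Polynomial ℂ).eval 2 / 2 ^ 0 - 1
          = (c : ℂ) * 100 := by
        simp only [Polynomial.eval_sub, Polynomial.eval_X, Polynomial.eval_one]
        norm_num
      rw [this]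
      exact h2

end Pool.Agent.H62.KC
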