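import Pool.Agent.H62.KC.LE
import Pool.Agent.H62.KC.LB
import Pool.Agent.H62.KC.LF

open Set Metric Filter Topology
open scoped ContDiff

noncomputable section

namespace Pool.Agent.H62.KC

open Pool.Agent.H93.KC hiding X
open Polynomial

/-- XI -/
theorem xi (hgeo : T_GEO) (hlink : T_LINK) (hA : T_LA) (hE : T_LE) : T_XI := by
  obtain ⟨-, -, -, -, -, -, a1, b1, a2, b2, a3, b3, a4, b4, a5, b5⟩ := hgeo
  have L : Link Y q {(1, 0)} (1, 1) := by
    refine hlink _ _ _ _ _ _ a5 b5 ?_ ?_ lf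
    · show (2 : ℂ) ≠ 0
      norm_num
    refine hlink _ _ _ _ _ _ a4 b4 ?_ ?_ hE
    · show (100 : ℂ) ≠ 0
      norm_num
    refine hlink _ _ _ _ _ _ a3 b3 ?_ ?_ ld
    · show (100 : ℂ) ≠ 0
      norm_num
    refine hlink _ _ _ _ _ _ a2 b2 ?_ ?_ lc
    · show (100 : ℂ) ≠ 0
      norm_num
    refine hlink _ _ _ _ _ _ a1 b1 ?_ hA lb
    · show (1 / 2 : ℂ) ≠ 0
      norm_num
  intro η hη
  obtain ⟨e, he0, he1, heη⟩ : ∃ e : ℝ, 0 < e ∧ 4 * e ≤ 1 ∧ 4 * e ≤ η :=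
    ⟨min η 1 / 4, by positivity, by
      have := min_le_right η 1
      linarith, by
      have := min_le_left η 1
      linarith⟩
  obtain ⟨Φ, Ψ, hΦ, hY, hq⟩ := L e he0
  set z' := (Φ q).1 with hz'
  set w' := (Φ q).2 with hw'
  have hq1 : ‖z' - 1‖ < e := by
    have := lt_of_le_of_lt (le_max_left _ _) (show max (dist (Φ q).1 1) (dist (Φ q).2 1) < e from hq)
    rwa [dist_eq_norm] at this
  have hq2 : ‖w' - 1‖ < e := by
    have := lt_of_le_of_lt (le_max_right _ _) (show max (dist (Φ q).1 1) (dist (Φ q).2 1) < e from hq)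
    rwa [dist_eq_norm] at this
  have hz1 : 1 - e ≤ ‖z'‖ := by
    have h1 : ‖(1 : ℂ)‖ ≤ ‖z'‖ + ‖z' - 1‖ := by
      calc ‖(1 : ℂ)‖ = ‖z' - (z' - 1)‖ := by ring_nf
        _ ≤ _ := norm_sub_le _ _
    have h4 : ‖(1 : ℂ)‖ = 1 := by simp
    linarith
  have hw1 : 1 - e ≤ ‖w'‖ := by
    have h1 : ‖(1 : ℂ)‖ ≤ ‖w'‖ + ‖w' - 1‖ := by
      calc ‖(1 : ℂ)‖ = ‖w' - (w' - 1)‖ := by ring_nf
        _ ≤ _ := norm_sub_le _ _
    have h4 : ‖(1 : ℂ)‖ = 1 := by simp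
    linarith
  have hz0 : z' ≠ 0 := by
    intro h; rw [h] at hz1; simp at hz1; linarith
  have hw0 : w' ≠ 0 := by
    intro h; rw [h] at hw1; simp at hw1; linarith
  have hexp : ∀ w : ℂ, Complex.exp ((C (-Complex.log z')).eval w) = z'⁻¹ := by
    intro w
    rw [Polynomial.eval_C, Complex.exp_neg, Complex.exp_log hz0]
  refine ⟨_, _, Aut.comp _ _ _ _ hΦ (Aut.comp _ _ _ _ (Aut.zshear (C (-Complex.log z')))
    (Aut.scale w'⁻¹ (inv_ne_zero hw0))), ?_, ?_⟩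
  · intro y hy
    obtain ⟨y', hy', hd⟩ := hY y hy
    have hy'' : y' = (1, 0) := hy'
    subst hy''
    have h1 : ‖(Φ y).1 - 1‖ < e := by
      have := lt_of_le_of_lt (le_max_left _ _) (show max (dist (Φ y).1 1) (dist (Φ y).2 0) < e from hd)
      rwa [dist_eq_norm] at this
    have h2 : ‖(Φ y).2‖ < e := by
      have := lt_of_le_of_lt (le_max_right _ _) (show max (dist (Φ y).1 1) (dist (Φ y).2 0) < e from hd)
      rwa [dist_eq_norm, sub_zero] at this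
    constructor
    · show ‖(Φ y).1 * Complex.exp ((C (-Complex.log z')).eval (Φ y).2) - 1‖ < η
      rw [hexp]
      have e1 : (Φ y).1 * z'⁻¹ - 1 = ((Φ y).1 - z') / z' := by field_simp
      rw [e1, norm_div, div_lt_iff₀ (by linarith)]
      have h3 : ‖(Φ y).1 - z'‖ ≤ ‖(Φ y).1 - 1‖ + ‖z' - 1‖ := by
        calc ‖(Φ y).1 - z'‖ = ‖((Φ y).1 - 1) - (z' - 1)‖ := by ring_nf
          _ ≤ _ := norm_sub_le _ _
      have h4 : η * (3 / 4) ≤ η * ‖z'‖ := by
        apply mul_le_mul_of_nonneg_left _ hη.le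
        linarith
      nlinarith
    · show ‖w'⁻¹ * (Φ y).2‖ < η
      rw [norm_mul, norm_inv, inv_mul_lt_iff₀ (by linarith)]
      have h4 : (3 / 4) * η ≤ ‖w'‖ * η := by
        apply mul_le_mul_of_nonneg_right _ hη.le
        linarith
      nlinarith
  · show (z' * Complex.exp ((C (-Complex.log z')).eval w'), w'⁻¹ * w') = (1, 1)
    rw [hexp, mul_inv_cancel₀ hz0, inv_mul_cancel₀ hw0]

end Pool.Agent.H62.KC
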